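import Pool.Agent.helper69.DH.SpecR2

set_option autoImplicit false

open Filter Topology MeasureTheory
open scoped commutatorElement

namespace Pool.Agent.helper90.DH

open Pool.Agent.helper64.D2

theorem rLD4_rcr_mono (D : RD) (s t : ℕ) (x : ℝ) (h : s ≤ t) (hs : rcr D s x) : rcr D t x := by
  obtain ⟨τ, hτ, hK⟩ := hs
  exact ⟨τ, le_trans hτ h, hK⟩

theorem rLD4 (hBAS : rBAS_stmt) (hBRN : rBRN_stmt) (hHOT : rHOT_stmt) (hLD3 : rLD3_stmt) (hLD5 : rLD5_stmt) : rLD4_stmt := by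
  classical
  intro P S hR D hD z X hX hz1 hz2 F hF n hn hnS hH
  obtain ⟨N, rfl⟩ : ∃ N, n = N + 1 := ⟨n - 1, by omega⟩
  have hs0N : P.s0 ≤ N := by omega
  have hNS : N ≤ S := by omega
  have hq1 : 1 ≤ P.q := hR.1.1
  have h216 : 216 ≤ P.s0 := hR.1.2.2.2.1
  have hqR : (1 : ℝ) ≤ (P.q : ℝ) := by exact_mod_cast hq1
  have hq0 : (0 : ℝ) < (P.q : ℝ) := by linarith
  have hT3 : ¬ rT3 P D.H D.K 0 N (ci N z) :=
    ((hHOT P S hR D hD N hNS).1 z hz1 hz2 (fun t ht => hH t (by omega))).2.1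
  unfold rT3 at hT3
  rw [not_lt] at hT3
  set m : ℤ := ci N z with hm
  -- the bound as real numbers
  have hTR : (2 : ℝ) ^ 30 * ((∑ i ∈ (Finset.range P.q).filter (fun i => |rlp N (rcc P N i m) - 1 / 2| ≤ (22 + ((0 : ℕ) : ℝ)) / 100), (rhp P D.H 0 N (rcc P N i m) : ℝ)) +
      P.q * rdg P D.K 0 N m) ≤ (P.q : ℝ) ^ 2 := by
    exact_mod_cast hT3
  have hp19 : (0 : ℝ) < 2 ^ 19 := by positivity
  -- the bound for one label
  have hkey : ∀ i ∈ Finset.range P.q, |∑ s ∈ Finset.Ico P.s0 (N + 1), reta D.H s (rpt P s i (ci s (X i))) *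
      ((if rcr D s (X i) then 0 else 1 / rNN P D.H s (ci s (X i))) - 1 / P.q) * (F (s + 1) (X i) - F s (X i))| ≤
      (if |rlp N (rcc P N i m) - 1 / 2| ≤ (22 + ((0 : ℕ) : ℝ)) / 100 then 2 ^ 19 / (P.q : ℝ) ^ 2 * (rhp P D.H 0 N (rcc P N i m) : ℝ) else 0) +
      (if rin D.K (rrk 0) N (rlp N (rcc P N i m)) then 2 ^ 19 / (P.q : ℝ) else 0) := by
    intro i hi
    rw [Finset.mem_range] at hi
    have hn1 : 0 ≤ (if |rlp N (rcc P N i m) - 1 / 2| ≤ (22 + ((0 : ℕ) : ℝ)) / 100 then 2 ^ 19 / (P.q : ℝ) ^ 2 * (rhp P D.H 0 N (rcc P N i m) : ℝ) else 0) := by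
      split_ifs
      · positivity
      · exact le_rfl
    have hn2 : 0 ≤ (if rin D.K (rrk 0) N (rlp N (rcc P N i m)) then 2 ^ 19 / (P.q : ℝ) else 0) := by
      split_ifs
      · positivity
      · exact le_rfl
    by_cases hx : X i ∈ Set.Ico (9 / 32 : ℝ) (23 / 32)
    · have hb := ((hBRN P S hR).2.2.1 N i z (X i) hs0N hNS hi (hX i hi N hs0N hNS)).2.2
      rw [← hm] at hb
      have h2N : (2 : ℝ) ^ 20 ≤ 2 ^ N := pow_le_pow_right₀ (by norm_num) (by omega)
      have h2N0 : (0 : ℝ) < 2 ^ N := by positivity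
      by_cases hc : rcr D N (X i)
      · -- critical
        have h5 := hLD5 P S hR D hD F hF (X i) i (N + 1) hx hi (by omega) hnS (by simpa using hc)
        have hin : rin D.K (rrk 0) N (rlp N (rcc P N i m)) := by
          obtain ⟨t, ht, hK⟩ := hc
          refine ⟨t, ht, ci t (X i), hK, ?_⟩
          have h1 := (hBAS.1 t (X i)).2.2
          have h2t : (2 : ℝ) ^ t ≤ 2 ^ N := pow_le_pow_right₀ (by norm_num) ht
          have h2t0 : (0 : ℝ) < 2 ^ t := by positivity
          have h3 : (2 : ℝ) ^ t * |rlp N (rcc P N i m) - X i| ≤ 9 / 4 := by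
            calc (2 : ℝ) ^ t * |rlp N (rcc P N i m) - X i| ≤ 2 ^ N * (9 / 4 / 2 ^ N) := by
                  apply mul_le_mul h2t hb (abs_nonneg _) h2N0.le
              _ = 9 / 4 := by field_simp
          have h4 : |(2 : ℝ) ^ t * rlp N (rcc P N i m) - 2 ^ t * X i| ≤ 9 / 4 := by
            rw [← mul_sub, abs_mul, abs_of_pos h2t0]
            exact h3
          have h6 : |(2 : ℝ) ^ t * rlp N (rcc P N i m) - (ci t (X i) : ℝ)| ≤ 9 / 4 + 1 := by
            calc |(2 : ℝ) ^ t * rlp N (rcc P N i m) - (ci t (X i) : ℝ)|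
                = |((2 : ℝ) ^ t * rlp N (rcc P N i m) - 2 ^ t * X i) + (2 ^ t * X i - (ci t (X i) : ℝ))| := by congr 1; ring
              _ ≤ _ := (abs_add_le _ _).trans (add_le_add h4 h1)
          refine h6.trans ?_
          unfold rrk
          norm_num
        rw [if_pos hin] at hn2 ⊢
        linarith
      · -- not critical
        have hbd : |rlp N (rcc P N i m) - 1 / 2| ≤ (22 + ((0 : ℕ) : ℝ)) / 100 := by
          have h1 : |X i - 1 / 2| ≤ 7 / 32 := by
            rw [abs_le]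
            constructor <;> linarith [hx.1, hx.2]
          have h2 : (9 / 4 : ℝ) / 2 ^ N ≤ 1 / 1000 := by
            rw [div_le_iff₀ h2N0]
            norm_num at h2N
            linarith
          have h3 : |rlp N (rcc P N i m) - 1 / 2| ≤ 1 / 1000 + 7 / 32 := by
            calc |rlp N (rcc P N i m) - 1 / 2| = |(rlp N (rcc P N i m) - X i) + (X i - 1 / 2)| := by congr 1; ring
              _ ≤ _ := (abs_add_le _ _).trans (add_le_add (hb.trans h2) h1)
          refine h3.trans ?_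
          norm_num
        have hbd3 : |rlp N (rcc P N i m) - X i| ≤ 3 / 2 ^ N := by
          refine hb.trans ?_
          apply div_le_div_of_nonneg_right _ h2N0.le
          norm_num
        have h3 := hLD3 P S hR D hD F hF (X i) i (N + 1) hx hi (by omega) hnS (by simpa using hc) (rcc P N i m) (by simpa using hbd3)
        rw [if_pos hbd]
        have heq : ∑ s ∈ Finset.Ico P.s0 (N + 1), reta D.H s (rpt P s i (ci s (X i))) *
            ((if rcr D s (X i) then 0 else 1 / rNN P D.H s (ci s (X i))) - 1 / P.q) * (F (s + 1) (X i) - F s (X i)) =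
            ∑ s ∈ Finset.Ico P.s0 (N + 1), reta D.H s (rpt P s i (ci s (X i))) *
            (1 / rNN P D.H s (ci s (X i)) - 1 / P.q) * (F (s + 1) (X i) - F s (X i)) := by
          apply Finset.sum_congr rfl
          intro s hs
          rw [Finset.mem_Ico] at hs
          have : ¬ rcr D s (X i) := fun h => hc (rLD4_rcr_mono D s N (X i) (by omega) h)
          rw [if_neg this]
        rw [heq]
        have h4 : (2 : ℝ) ^ 19 / P.q * ((rhp P D.H 0 (N + 1 - 1) (rcc P N i m) : ℝ) / P.q) = 2 ^ 19 / (P.q : ℝ) ^ 2 * (rhp P D.H 0 N (rcc P N i m) : ℝ) := by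
          simp only [Nat.add_sub_cancel]
          field_simp
        rw [h4] at h3
        linarith
    · have heq : ∑ s ∈ Finset.Ico P.s0 (N + 1), reta D.H s (rpt P s i (ci s (X i))) *
          ((if rcr D s (X i) then 0 else 1 / rNN P D.H s (ci s (X i))) - 1 / P.q) * (F (s + 1) (X i) - F s (X i)) = 0 := by
        apply Finset.sum_eq_zero
        intro s hs
        rw [Finset.mem_Ico] at hs
        rw [hF.2 s hs.1 (by omega) (X i) hx, sub_self, mul_zero]
      rw [heq, abs_zero]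
      linarith
  -- the sum
  refine (Finset.abs_sum_le_sum_abs _ _).trans ?_
  refine (Finset.sum_le_sum hkey).trans ?_
  rw [Finset.sum_add_distrib, ← Finset.sum_filter, ← Finset.sum_filter, Finset.sum_const, nsmul_eq_mul, ← Finset.mul_sum]
  have hcard : (((Finset.range P.q).filter (fun i => rin D.K (rrk 0) N (rlp N (rcc P N i m)))).card : ℝ) = (rdg P D.K 0 N m : ℝ) := by
    unfold rdg
    congr
  rw [hcard]
  have hfin : ∀ (A B : ℝ), (2 : ℝ) ^ 30 * (A + P.q * B) ≤ (P.q : ℝ) ^ 2 →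
      (2 : ℝ) ^ 19 / (P.q : ℝ) ^ 2 * A + B * (2 ^ 19 / (P.q : ℝ)) ≤ 1 / 1000 := by
    intro A B hAB
    calc (2 : ℝ) ^ 19 / (P.q : ℝ) ^ 2 * A + B * (2 ^ 19 / (P.q : ℝ)) =
          2 ^ 19 / (2 ^ 30 * (P.q : ℝ) ^ 2) * ((2 : ℝ) ^ 30 * (A + P.q * B)) := by field_simp
      _ ≤ 2 ^ 19 / (2 ^ 30 * (P.q : ℝ) ^ 2) * (P.q : ℝ) ^ 2 := by
          apply mul_le_mul_of_nonneg_left hAB (by positivity)
      _ = 2 ^ 19 / 2 ^ 30 := by field_simp
      _ ≤ 1 / 1000 := by norm_num
  have hgoal := hfin _ _ hTR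
  convert hgoal using 3

end Pool.Agent.helper90.DH
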